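import Mathlib
import Pool.Agent.U707.PT.Stm

/-!
# Project PT, package INT: roots of integral polynomials with constant term one
-/

set_option autoImplicit false

open Polynomial

namespace Pool.Agent.U864.PT

/-- The recursion: if `f ^ b` and all the lower coefficients of `f` are rational, so is the next
one. -/
theorem rat_coeff {E : Type} [Field E] [CharZero E] (b : ℕ) (hb : 0 < b) (D : ℚ[X]) (f : E[X])
    (h1 : f.coeff 0 = 1) (h : f ^ b = D.map (algebraMap ℚ E)) :
    ∀ n, f.coeff n ∈ Set.range (algebraMap ℚ E) := by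
  intro n
  induction n using Nat.strong_induction_on with
  | _ n ih =>
    rcases Nat.eq_zero_or_pos n with hn | hn
    · subst hn
      exact ⟨1, by rw [map_one, h1]⟩
    -- the truncation
    let g : E[X] := ∑ k ∈ Finset.range n, monomial k (f.coeff k)
    have hgc : ∀ k, g.coeff k = if k < n then f.coeff k else 0 := by
      intro k
      simp only [g, finsetSum_coeff, coeff_monomial]
      rw [Finset.sum_ite_eq']
      simp
    have hglift : g ∈ lifts (algebraMap ℚ E) := by
      rw [lifts_iff_coeff_lifts]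
      intro k
      rw [hgc k]
      split_ifs with hk
      · exact ih k hk
      · exact ⟨0, map_zero _⟩
    obtain ⟨g₀, hg₀⟩ := (mem_lifts _).1 hglift
    have hdvd : X ^ n ∣ f - g := by
      rw [X_pow_dvd_iff]
      intro d hd
      rw [coeff_sub, hgc d, if_pos hd, sub_self]
    obtain ⟨u, hu⟩ := hdvd
    have hgeom : f ^ b - g ^ b = (f - g) * ∑ i ∈ Finset.range b, f ^ i * g ^ (b - 1 - i) :=
      ((Commute.all f g).mul_geom_sum₂ b).symm
    set S : E[X] := ∑ i ∈ Finset.range b, f ^ i * g ^ (b - 1 - i) with hS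
    have hg0 : g.coeff 0 = 1 := by rw [hgc 0, if_pos hn, h1]
    have hS0 : S.coeff 0 = (b : E) := by
      rw [hS, finsetSum_coeff]
      have : ∀ i ∈ Finset.range b, (f ^ i * g ^ (b - 1 - i)).coeff 0 = 1 := by
        intro i _
        rw [mul_coeff_zero, coeff_zero_eq_eval_zero, coeff_zero_eq_eval_zero, eval_pow, eval_pow,
          ← coeff_zero_eq_eval_zero, ← coeff_zero_eq_eval_zero, h1, hg0, one_pow, one_pow, one_mul]
      rw [Finset.sum_congr rfl this]
      simp
    have hu0 : u.coeff 0 = f.coeff n := by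
      have h2 := congrArg (fun p => coeff p n) hu
      simp only [coeff_sub, hgc n, lt_irrefl, if_false, sub_zero] at h2
      rw [h2]
      have := coeff_X_pow_mul u n 0
      rw [zero_add] at this
      exact this.symm
    have hkey : (f ^ b - g ^ b).coeff n = f.coeff n * b := by
      rw [hgeom, hu, mul_assoc]
      have := coeff_X_pow_mul (u * S) n 0
      rw [zero_add] at this
      rw [this, mul_coeff_zero, hu0, hS0]
    have hbE : (b : E) ≠ 0 := Nat.cast_ne_zero.2 hb.ne'
    refine ⟨((D - g₀ ^ b).coeff n) / b, ?_⟩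
    have h3 : f ^ b - g ^ b = (D - g₀ ^ b).map (algebraMap ℚ E) := by
      rw [h, Polynomial.map_sub, Polynomial.map_pow, hg₀]
    rw [h3, coeff_map] at hkey
    rw [map_div₀, hkey, map_natCast]
    field_simp

section
attribute [local instance] Polynomial.algebra

/-- A rational polynomial with an integral power is integral. -/
theorem int_of_pow (b : ℕ) (hb : 0 < b) (D : ℤ[X]) (g : ℚ[X])
    (h : g ^ b = D.map (algebraMap ℤ ℚ)) : ∃ P : ℤ[X], g = P.map (algebraMap ℤ ℚ) := by
  have hint : IsIntegral ℤ[X] g := by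
    refine IsIntegral.of_pow hb ?_
    rw [h]
    exact isIntegral_algebraMap (R := ℤ[X]) (A := ℚ[X]) (x := D)
  have hl : g ∈ lifts (algebraMap ℤ ℚ) := by
    rw [lifts_iff_coeff_lifts]
    intro n
    exact IsIntegrallyClosed.isIntegral_iff.mp (hint.coeff n)
  obtain ⟨P, hP⟩ := (mem_lifts _).1 hl
  exact ⟨P, hP.symm⟩

end

/-- Uniqueness of the root with constant term one. -/
theorem root_unique {E : Type} [Field E] [CharZero E] (b : ℕ) (hb : 0 < b) (f g : E[X])
    (hf : f.coeff 0 = 1) (hg : g.coeff 0 = 1) (h : f ^ b = g ^ b) : f = g := by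
  have hgeom : f ^ b - g ^ b = (f - g) * ∑ i ∈ Finset.range b, f ^ i * g ^ (b - 1 - i) :=
    ((Commute.all f g).mul_geom_sum₂ b).symm
  set S : E[X] := ∑ i ∈ Finset.range b, f ^ i * g ^ (b - 1 - i) with hS
  have hS0 : S.coeff 0 = (b : E) := by
    rw [hS, finsetSum_coeff]
    have : ∀ i ∈ Finset.range b, (f ^ i * g ^ (b - 1 - i)).coeff 0 = 1 := by
      intro i _
      rw [mul_coeff_zero, coeff_zero_eq_eval_zero, coeff_zero_eq_eval_zero, eval_pow, eval_pow,
        ← coeff_zero_eq_eval_zero, ← coeff_zero_eq_eval_zero, hf, hg, one_pow, one_pow, one_mul]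
    rw [Finset.sum_congr rfl this]
    simp
  have hbE : (b : E) ≠ 0 := Nat.cast_ne_zero.2 hb.ne'
  have hSne : S ≠ 0 := by
    intro h0
    rw [h0, coeff_zero] at hS0
    exact hbE hS0.symm
  rw [h, sub_self] at hgeom
  rcases mul_eq_zero.1 hgeom.symm with h1 | h1
  · exact sub_eq_zero.1 h1
  · exact absurd h1 hSne

theorem isPrimitive_of_coeff_zero (B : ℤ[X]) (hB : B.coeff 0 = 1) : B.IsPrimitive := by
  intro r hr
  rw [C_dvd_iff_dvd_coeff] at hr
  have := hr 0
  rw [hB] at this
  exact isUnit_of_dvd_one this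

theorem t_INT : Pool.Agent.U707.PT.S_INT := by
  intro b hb A B hA hB
  by_cases hex : ∃ (E : Type) (_ : Field E) (_ : CharZero E) (f : E[X]), f.coeff 0 = 1 ∧
      f ^ b * B.map (Int.castRingHom E) = A.map (Int.castRingHom E)
  swap
  · refine ⟨1, ?_⟩
    intro E _ _ f h1 h2
    exact absurd ⟨E, inferInstance, inferInstance, f, h1, h2⟩ hex
  obtain ⟨E, _, _, f, hf1, hf⟩ := hex
  have hmapE : ∀ (K : Type) [Field K] [CharZero K] (Q : ℤ[X]),
      Q.map (Int.castRingHom K) = (Q.map (algebraMap ℤ ℚ)).map (algebraMap ℚ K) := by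
    intro K _ _ Q
    rw [Polynomial.map_map]
    congr 1
    exact RingHom.ext_int _ _
  -- divisibility
  have hdvdE : B.map (Int.castRingHom E) ∣ A.map (Int.castRingHom E) := ⟨f ^ b, by
    rw [← hf, mul_comm]⟩
  have hdvdQ : B.map (algebraMap ℤ ℚ) ∣ A.map (algebraMap ℤ ℚ) := by
    rw [hmapE, hmapE] at hdvdE
    exact (Polynomial.map_dvd_map' (algebraMap ℚ E)).1 hdvdE
  have hBp := isPrimitive_of_coeff_zero B hB
  have hdvdZ : B ∣ A := by
    rw [IsPrimitive.Int.dvd_iff_map_cast_dvd_map_cast B A hBp]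
    exact hdvdQ
  obtain ⟨D, hD⟩ := hdvdZ
  have hBne : ∀ (K : Type) [Field K] [CharZero K], B.map (Int.castRingHom K) ≠ 0 := by
    intro K _ _ h0
    have := congrArg (fun p => coeff p 0) h0
    simp [hB] at this
  have hfD : f ^ b = (D.map (algebraMap ℤ ℚ)).map (algebraMap ℚ E) := by
    rw [← hmapE]
    have : f ^ b * B.map (Int.castRingHom E) =
        D.map (Int.castRingHom E) * B.map (Int.castRingHom E) := by
      rw [hf, hD, Polynomial.map_mul, mul_comm]
    exact mul_right_cancel₀ (hBne E) this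
  have hl : f ∈ lifts (algebraMap ℚ E) := by
    rw [lifts_iff_coeff_lifts]
    exact rat_coeff b hb _ f hf1 hfD
  obtain ⟨g, hg⟩ := (mem_lifts _).1 hl
  have hgD : g ^ b = D.map (algebraMap ℤ ℚ) := by
    apply Polynomial.map_injective (algebraMap ℚ E) (algebraMap ℚ E).injective
    rw [Polynomial.map_pow, hg, hfD]
  obtain ⟨P, hP⟩ := int_of_pow b hb D g hgD
  have hPD : P ^ b = D := by
    apply Polynomial.map_injective (algebraMap ℤ ℚ) (algebraMap ℤ ℚ).injective_int
    rw [Polynomial.map_pow, ← hP, hgD]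
  have hP0 : P.coeff 0 = 1 := by
    have h2 : (P.map (Int.castRingHom E)).coeff 0 = 1 := by
      rw [hmapE, ← hP, hg, hf1]
    rw [coeff_map] at h2
    have h3 : ((P.coeff 0 : ℤ) : E) = ((1 : ℤ) : E) := by
      rw [Int.cast_one]; exact h2
    exact Int.cast_injective h3
  refine ⟨P, ?_⟩
  intro K _ _ f' h1 h2
  have h3 : f' ^ b = (P.map (Int.castRingHom K)) ^ b := by
    rw [← Polynomial.map_pow, hPD]
    have : f' ^ b * B.map (Int.castRingHom K) =
        D.map (Int.castRingHom K) * B.map (Int.castRingHom K) := by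
      rw [h2, hD, Polynomial.map_mul, mul_comm]
    exact mul_right_cancel₀ (hBne K) this
  refine root_unique b hb _ _ h1 ?_ h3
  rw [coeff_map, hP0]
  simp

end Pool.Agent.U864.PT
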